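import Mathlib
import Pool.Agent.Helper183_ST.Trace

/-!
# Products of any number of elliptic curves: moments and signs of the trace of Frobenius

Let `E_1, ..., E_n` be elliptic curves over `ℚ` without complex multiplication, no two of them isogenous over `ℚ̄`, and
let `A` be an abelian variety isogenous over `ℚ` to `E_1^{m_1} × ... × E_n^{m_n}`, `m_i ≥ 1`. Then `ST(A)` is
`SU(2)^n`, embedded by `m_i` copies of the `i`-th factor, and Q1 predicts that the vectors
`(x_1(p), ..., x_n(p))`, `x_i(p) = a_p(E_i) / √p`, are distributed like `n` independent variables with the semicircle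
law. For `n ≤ 2` this is known (Taylor et al., Harris). For `n ≥ 3` it is not: it needs the `L`-functions of the
products `Sym^a × Sym^b × Sym^c × ...` of three and more forms, and a priori nothing excludes
that, for instance, the sign of `a_p(E_1) a_p(E_2) a_p(E_3)` is constant for almost all `p`. We show, for **all** `n`:

* all the mixed moments of the `x_i` up to the order four are the predicted ones; so are all the moments of weight at
  most four of the coefficients of the normalised `L`-polynomial (`a_i(A)` has the weight `i`), for instance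
* `a_1(A) = - ∑ m_i x_i` has the first four moments `0, v, 0, 3 v² - w`, `v = ∑ m_i²`, `w = ∑ m_i⁴`, and
  `a_2(A)` has the mean `(v + g) / 2`, `g = ∑ m_i`, and the mean square
  `(3 v² - w + 2 g v - 2 c + g² + v) / 4`, `c = ∑ m_i³`;
* the primes with `a_1(A)(p) < 0` have a lower density of at least `v² / (2 (3 v² - w)) > 1/6`, and so have the primes
  with `a_1(A)(p) > 0`. This is the best bound for a variable with these four moments.
* for every `0 ≤ lam < 1` the primes with `a_1(A)(p) < - lam √v` have a lower density of at least `(1 - lam)^4 / 100`, and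
  the same is true for `a_1(A)(p) > lam √v`. The bounds do not depend on `n`, the curves and the multiplicities.

What is used of the curves is the structure `SatoTateFacts`; all of it is known. Let `f_i` be the newform of `E_i`
(modularity); the `f_i` have no complex multiplication and are not twists of each other. `Sym^a f_i` is cuspidal
automorphic on `GL(a + 1)` (Newton, Thorne), `f_i ⊠ f_j` on `GL(4)` (Ramakrishnan) and `f_i ⊠ Sym² f_j` on `GL(6)`
(Kim, Shahidi; Ramakrishnan, Wang), `i ≠ j`. For two of these, with disjoint sets of indices, the Rankin-Selberg `L`-function has no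
zeros on `Re s = 1` (Shahidi) and no pole there (Jacquet, Shalika): they are not isomorphic up to `|det|^{it}`, as
the image of the Galois group on the Tate modules is open in the product (Serre, Ribet). So the mean of the product of the
traces over the primes is zero.
-/

set_option autoImplicit false

open Filter Topology Finset

namespace Pool.Agent.Results.MP_753a9c_nt.ProductsOfEllipticCurves

open Pool.Agent.Helper183_ST

/-- the trace of Frobenius `p + 1 - #E(𝔽_p) = p - #{(x, y) : y² + a₁ x y + a₃ y = x³ + a₂ x² + a₄ x + a₆}` -/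
noncomputable def frob (W : WeierstrassCurve ℤ) (p : ℕ) : ℤ :=
  p - Nat.card {z : ZMod p × ZMod p // z.2 ^ 2 + (W.a₁ : ZMod p) * z.1 * z.2 + (W.a₃ : ZMod p) * z.2 =
    z.1 ^ 3 + (W.a₂ : ZMod p) * z.1 ^ 2 + (W.a₄ : ZMod p) * z.1 + (W.a₆ : ZMod p)}

/-- the normalised trace `a_p / √p` -/
noncomputable def ntr (W : WeierstrassCurve ℤ) (p : ℕ) : ℝ := frob W p / √p

/-- the primes `p ≤ X` outside `S` -/
def primesOut (S : Finset ℕ) (X : ℕ) : Finset ℕ := (Finset.Icc 1 X).filter fun p => p.Prime ∧ p ∉ S

/-- What is known about elliptic curves over `ℚ` without complex multiplication and pairwise not isogenous over `ℚ̄`; `W i` are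
integral models whose discriminants have no prime divisors outside `S`. See the head of this file. The exponents `e`
with `IsLift e` belong to `Sym^a f_i`, `f_i ⊠ f_j` and `f_i ⊠ Sym² f_j`, `i ≠ j`. -/
structure SatoTateFacts {n : ℕ} (W : Fin n → WeierstrassCurve ℤ) (S : Finset ℕ) : Prop where
  /-- the mean of the product of the traces of two lifts with disjoint sets of indices is zero -/
  mean : ∀ e e' : Fin n → ℕ, IsLift e → IsLift e' → (∀ i, e i = 0 ∨ e' i = 0) → e + e' ≠ 0 →
    HasMean (primesOut S) (fun p => ∏ i, U (e i + e' i) (ntr (W i) p)) 0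

theorem nonempty_primesOut (S : Finset ℕ) : ∀ᶠ X in atTop, (primesOut S X).Nonempty := by
  obtain ⟨p, hp, hpp⟩ := Nat.exists_infinite_primes (S.sup id + 1)
  filter_upwards [eventually_ge_atTop p] with X hX
  refine ⟨p, ?_⟩
  rw [primesOut, Finset.mem_filter, Finset.mem_Icc]
  refine ⟨⟨hpp.one_lt.le, hX⟩, hpp, fun h => ?_⟩
  have := Finset.le_sup (f := id) h
  simp only [id] at this
  omega

theorem SatoTateFacts.known {n : ℕ} {W : Fin n → WeierstrassCurve ℤ} {S : Finset ℕ}
    (h : SatoTateFacts W S) : KnownFacts (primesOut S) (fun i p => ntr (W i) p) :=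
  ⟨nonempty_primesOut S, h.mean⟩

/-- `-a_1(A)(p)` for `A` isogenous to the product of the `E_i^{m_i}` -/
noncomputable def trA {n : ℕ} (W : Fin n → WeierstrassCurve ℤ) (m : Fin n → ℕ) (p : ℕ) : ℝ :=
  ∑ i, (m i : ℝ) * ntr (W i) p

/-- `a_2(A)(p)`, the coefficient of `T²` of `∏_i (1 - x_i T + T²)^{m_i}` -/
noncomputable def a2A {n : ℕ} (W : Fin n → WeierstrassCurve ℤ) (m : Fin n → ℕ) (p : ℕ) : ℝ :=
  (trA W m p ^ 2 - ∑ i, (m i : ℝ) * ntr (W i) p ^ 2) / 2 + ∑ i, (m i : ℝ)

theorem moments_a2 {ι : Type*} {n : ℕ} {A : ℕ → Finset ι} {x : Fin n → ι → ℝ} (h : KnownFacts A x)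
    (m : Fin n → ℝ) :
    HasMean A (fun v => ((∑ i, m i * x i v) ^ 2 - ∑ i, m i * x i v ^ 2) / 2 + ∑ i, m i)
      ((∑ i, m i ^ 2 + ∑ i, m i) / 2) ∧
    HasMean A (fun v => (((∑ i, m i * x i v) ^ 2 - ∑ i, m i * x i v ^ 2) / 2 + ∑ i, m i) ^ 2)
      ((3 * (∑ i, m i ^ 2) ^ 2 - ∑ i, m i ^ 4 + 2 * (∑ i, m i) * (∑ i, m i ^ 2) - 2 * ∑ i, m i ^ 3 +
        (∑ i, m i) ^ 2 + ∑ i, m i ^ 2) / 4) := by
  have hQ : HasMean A (fun v => ∑ i, m i * x i v ^ 2) (∑ i, m i) := by
    have h1 := HasMean.sum (A := A) Finset.univ (f := fun i v => m i * x i v ^ 2)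
      (c := fun i => m i * 1) (fun i _ => (h.m2 i).const_mul (m i))
    simpa using h1
  have hT2 := h.tr2 m
  have hT4 := h.tr4 m
  -- mean of `T² x_i²`
  have hTx : ∀ i, HasMean A (fun v => (∑ i, m i * x i v) ^ 2 * x i v ^ 2)
      (∑ i, m i ^ 2 + m i ^ 2) := by
    intro i
    have h1 := HasMean.sum (A := A) Finset.univ
      (f := fun j v => ∑ k, m j * m k * (x j v * x k v * x i v * x i v))
      (c := fun j => ∑ k, m j * m k * c4 j k i i)
      (fun j _ => HasMean.sum (A := A) Finset.univ (fun k _ =>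
        (h.mom4 j k i i).const_mul (m j * m k)))
    have e : ∑ j, ∑ k, m j * m k * c4 j k i i = ∑ i, m i ^ 2 + m i ^ 2 := by
      have e1 : ∀ j k, m j * m k * c4 j k i i = (if j = k then m j * m k else 0) +
          (if j = i then (if k = i then m j * m k else 0) else 0) := by
        intro j k
        unfold c4
        by_cases h1 : j = k
        · subst h1
          by_cases h2 : j = i
          · simp [h2]; ring
          · simp [h2]
        · by_cases h2 : j = i
          · by_cases h3 : k = i
            · exact absurd (h2.trans h3.symm) h1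
            · simp [h2, h3]
          · simp [h1, h2]
      simp only [e1, Finset.sum_add_distrib]
      have e2 : ∑ j, ∑ k, (if j = k then m j * m k else 0) = ∑ i, m i ^ 2 := by
        refine Finset.sum_congr rfl fun j _ => ?_
        rw [Finset.sum_ite_eq]
        simp [pow_two]
      have e3 : ∑ j, ∑ k, (if j = i then (if k = i then m j * m k else 0) else 0) = m i ^ 2 := by
        have : ∀ j, ∑ k, (if j = i then (if k = i then m j * m k else 0) else 0) =
            if j = i then m j * m i else 0 := by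
          intro j
          by_cases h2 : j = i
          · simp [h2]
          · simp [h2]
        rw [Finset.sum_congr rfl fun j _ => this j, Finset.sum_ite_eq']
        simp [pow_two]
      rw [e2, e3]
    rw [e] at h1
    refine h1.congr fun X v _ => ?_
    rw [sum_pow_two, Finset.sum_mul]
    refine Finset.sum_congr rfl fun j _ => ?_
    rw [Finset.sum_mul]
    refine Finset.sum_congr rfl fun k _ => by ring
  have hTQ : HasMean A (fun v => (∑ i, m i * x i v) ^ 2 * ∑ i, m i * x i v ^ 2)
      ((∑ i, m i) * (∑ i, m i ^ 2) + ∑ i, m i ^ 3) := by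
    have h1 := HasMean.sum (A := A) Finset.univ
      (f := fun i v => m i * ((∑ i, m i * x i v) ^ 2 * x i v ^ 2))
      (c := fun i => m i * (∑ i, m i ^ 2 + m i ^ 2)) (fun i _ => (hTx i).const_mul (m i))
    have e : ∑ i, m i * (∑ i, m i ^ 2 + m i ^ 2) = (∑ i, m i) * (∑ i, m i ^ 2) + ∑ i, m i ^ 3 := by
      rw [Finset.sum_mul, ← Finset.sum_add_distrib]
      refine Finset.sum_congr rfl fun i _ => by ring
    rw [e] at h1
    refine h1.congr fun X v _ => ?_
    rw [Finset.mul_sum]
    refine Finset.sum_congr rfl fun i _ => by ring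
  have hQ2 : HasMean A (fun v => (∑ i, m i * x i v ^ 2) ^ 2) ((∑ i, m i) ^ 2 + ∑ i, m i ^ 2) := by
    have h1 := HasMean.sum (A := A) Finset.univ
      (f := fun i v => ∑ j, m i * m j * (x i v * x i v * x j v * x j v))
      (c := fun i => ∑ j, m i * m j * c4 i i j j)
      (fun i _ => HasMean.sum (A := A) Finset.univ (fun j _ =>
        (h.mom4 i i j j).const_mul (m i * m j)))
    have e : ∑ i, ∑ j, m i * m j * c4 i i j j = (∑ i, m i) ^ 2 + ∑ i, m i ^ 2 := by
      have e1 : ∀ i j, m i * m j * c4 i i j j = m i * m j + (if i = j then m i * m j else 0) := by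
        intro i j
        unfold c4
        by_cases h1 : i = j
        · simp [h1]; ring
        · simp [h1]
      simp only [e1, Finset.sum_add_distrib]
      rw [sum_pow_two]
      congr 1
      refine Finset.sum_congr rfl fun i _ => ?_
      rw [Finset.sum_ite_eq]
      simp [pow_two]
    rw [e] at h1
    refine h1.congr fun X v _ => ?_
    rw [sum_pow_two]
    refine Finset.sum_congr rfl fun i _ => Finset.sum_congr rfl fun j _ => by ring
  have hc := hasMean_const h.nonempty (∑ i, m i)
  constructor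
  · have h1 := ((hT2.sub hQ).const_mul (1 / 2)).add hc
    have e : 1 / 2 * (∑ i, m i ^ 2 - ∑ i, m i) + ∑ i, m i = (∑ i, m i ^ 2 + ∑ i, m i) / 2 := by ring
    rw [e] at h1
    exact h1.congr fun X v _ => by ring
  · have hc2 := hasMean_const h.nonempty ((∑ i, m i) ^ 2)
    have h1 := ((((hT4.sub (hTQ.const_mul 2)).add hQ2).const_mul (1 / 4)).add
      ((hT2.sub hQ).const_mul (∑ i, m i))).add hc2
    have e : 1 / 4 * (3 * (∑ i, m i ^ 2) ^ 2 - ∑ i, m i ^ 4 -
        2 * ((∑ i, m i) * (∑ i, m i ^ 2) + ∑ i, m i ^ 3) + ((∑ i, m i) ^ 2 + ∑ i, m i ^ 2)) +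
        (∑ i, m i) * (∑ i, m i ^ 2 - ∑ i, m i) + (∑ i, m i) ^ 2 =
        (3 * (∑ i, m i ^ 2) ^ 2 - ∑ i, m i ^ 4 + 2 * (∑ i, m i) * (∑ i, m i ^ 2) -
          2 * ∑ i, m i ^ 3 + (∑ i, m i) ^ 2 + ∑ i, m i ^ 2) / 4 := by ring
    rw [e] at h1
    exact h1.congr fun X v _ => by ring

/-- **Moments up to the order four and signs of the trace for products of any number of elliptic curves.** -/
theorem result {n : ℕ} {W : Fin n → WeierstrassCurve ℤ} {S : Finset ℕ} (h : SatoTateFacts W S) :
    -- the mixed moments up to the order four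
    ((∀ i, HasMean (primesOut S) (fun p => ntr (W i) p) 0) ∧
      (∀ i j, HasMean (primesOut S) (fun p => ntr (W i) p * ntr (W j) p) (if i = j then 1 else 0)) ∧
      (∀ i j k, HasMean (primesOut S) (fun p => ntr (W i) p * ntr (W j) p * ntr (W k) p) 0) ∧
      (∀ i j k l, HasMean (primesOut S)
        (fun p => ntr (W i) p * ntr (W j) p * ntr (W k) p * ntr (W l) p)
        ((if i = j then 1 else 0) * (if k = l then 1 else 0) +
          (if i = k then 1 else 0) * (if j = l then 1 else 0) +
          (if i = l then 1 else 0) * (if j = k then 1 else 0) -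
          (if i = j then 1 else 0) * (if j = k then 1 else 0) * (if k = l then 1 else 0)))) ∧
    ∀ (m : Fin n → ℕ), (∃ i, m i ≠ 0) → ∀ (g v c w : ℝ), g = ∑ i, (m i : ℝ) →
      v = ∑ i, (m i : ℝ) ^ 2 → c = ∑ i, (m i : ℝ) ^ 3 → w = ∑ i, (m i : ℝ) ^ 4 →
    -- the moments of `a_1(A)` and `a_2(A)`
    (HasMean (primesOut S) (fun p => trA W m p) 0 ∧
      HasMean (primesOut S) (fun p => trA W m p ^ 2) v ∧
      HasMean (primesOut S) (fun p => trA W m p ^ 3) 0 ∧
      HasMean (primesOut S) (fun p => trA W m p ^ 4) (3 * v ^ 2 - w) ∧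
      HasMean (primesOut S) (fun p => a2A W m p) ((v + g) / 2) ∧
      HasMean (primesOut S) (fun p => a2A W m p ^ 2)
        ((3 * v ^ 2 - w + 2 * g * v - 2 * c + g ^ 2 + v) / 4)) ∧
    -- signs
    1 / 6 < v ^ 2 / (2 * (3 * v ^ 2 - w)) ∧
    (∀ δ : ℝ, 0 < δ → ∀ᶠ X in atTop,
      (v ^ 2 / (2 * (3 * v ^ 2 - w)) - δ) * ((primesOut S X).card : ℝ) ≤
        (((primesOut S X).filter fun p => 0 < trA W m p).card : ℝ) ∧
      (v ^ 2 / (2 * (3 * v ^ 2 - w)) - δ) * ((primesOut S X).card : ℝ) ≤
        (((primesOut S X).filter fun p => trA W m p < 0).card : ℝ)) ∧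
    -- values which are almost as large as the standard deviation
    (∀ lam : ℝ, 0 ≤ lam → lam < 1 → ∀ᶠ X in atTop,
      (1 - lam) ^ 4 / 100 * ((primesOut S X).card : ℝ) ≤
        (((primesOut S X).filter fun p => lam * √v < trA W m p).card : ℝ) ∧
      (1 - lam) ^ 4 / 100 * ((primesOut S X).card : ℝ) ≤
        (((primesOut S X).filter fun p => trA W m p < - (lam * √v)).card : ℝ)) := by
  have hk := h.known
  refine ⟨⟨fun i => hk.m1 i, fun i j => hk.mom2 i j, fun i j k => hk.mom3 i j k,
    fun i j k l => hk.mom4 i j k l⟩, fun m hm g v c w hg hv hc hw => ?_⟩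
  obtain ⟨i₀, hi₀⟩ := hm
  have ht1 : HasMean (primesOut S) (fun p => trA W m p) 0 := hk.tr1 (fun i => (m i : ℝ))
  have ht2 : HasMean (primesOut S) (fun p => trA W m p ^ 2) v := by
    rw [hv]; exact hk.tr2 (fun i => (m i : ℝ))
  have ht3 : HasMean (primesOut S) (fun p => trA W m p ^ 3) 0 := hk.tr3 (fun i => (m i : ℝ))
  have ht4 : HasMean (primesOut S) (fun p => trA W m p ^ 4) (3 * v ^ 2 - w) := by
    rw [hv, hw]; exact hk.tr4 (fun i => (m i : ℝ))
  have ha2 := moments_a2 hk (fun i => (m i : ℝ))
  rw [← hg, ← hv, ← hc, ← hw] at ha2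
  have ha2m : HasMean (primesOut S) (fun p => a2A W m p) ((v + g) / 2) :=
    ha2.1.congr fun X p _ => by rw [a2A, trA, ← hg]
  have ha2s : HasMean (primesOut S) (fun p => a2A W m p ^ 2)
      ((3 * v ^ 2 - w + 2 * g * v - 2 * c + g ^ 2 + v) / 4) :=
    ha2.2.congr fun X p _ => by rw [a2A, trA, ← hg]
  have hm1 : (1 : ℝ) ≤ m i₀ := by exact_mod_cast Nat.one_le_iff_ne_zero.mpr hi₀
  have hv0 : 0 < v := by
    rw [hv]
    refine lt_of_lt_of_le (by positivity : (0 : ℝ) < (m i₀ : ℝ) ^ 2)
      (Finset.single_le_sum (f := fun i => (m i : ℝ) ^ 2) (fun i _ => sq_nonneg _)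
        (Finset.mem_univ i₀))
  have hw0 : 0 < w := by
    rw [hw]
    refine lt_of_lt_of_le (by positivity : (0 : ℝ) < (m i₀ : ℝ) ^ 4)
      (Finset.single_le_sum (f := fun i => (m i : ℝ) ^ 4) (fun i _ => by positivity)
        (Finset.mem_univ i₀))
  have hwv : w ≤ v ^ 2 := by
    rw [hw, hv, pow_two, Finset.sum_mul_sum]
    refine Finset.sum_le_sum fun i _ => ?_
    have := Finset.single_le_sum (f := fun j => (m i : ℝ) ^ 2 * (m j : ℝ) ^ 2)
      (fun j _ => by positivity) (Finset.mem_univ i)
    refine le_trans (le_of_eq ?_) this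
    ring
  have hb0 : 0 < 3 * v ^ 2 - w := by nlinarith
  -- the negative of the trace
  have hn1 : HasMean (primesOut S) (fun p => - trA W m p) 0 := by
    have := ht1.neg; rwa [neg_zero] at this
  have hn2 : HasMean (primesOut S) (fun p => (- trA W m p) ^ 2) v :=
    ht2.congr fun X p _ => by ring
  have hn3 : HasMean (primesOut S) (fun p => (- trA W m p) ^ 3) 0 := by
    have := ht3.neg
    rw [neg_zero] at this
    exact this.congr fun X p _ => by ring
  have hn4 : HasMean (primesOut S) (fun p => (- trA W m p) ^ 4) (3 * v ^ 2 - w) :=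
    ht4.congr fun X p _ => by ring
  refine ⟨⟨ht1, ht2, ht3, ht4, ha2m, ha2s⟩, ?_, fun δ hδ => ?_, fun lam h0 h1 => ?_⟩
  · rw [div_lt_div_iff₀ (by norm_num) (by linarith)]
    linarith
  · filter_upwards [sign_density hv0 hb0 ht1 ht2 ht3 ht4 hδ,
      sign_density hv0 hb0 hn1 hn2 hn3 hn4 hδ] with X h1 h2
    refine ⟨h1, ?_⟩
    simpa only [Left.neg_pos_iff] using h2
  · have hb : 3 * v ^ 2 - w ≤ 3 * v ^ 2 := by linarith
    filter_upwards [above_density (nonempty_primesOut S) hv0 hb ht1 ht2 ht3 ht4 h0 h1,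
      above_density (nonempty_primesOut S) hv0 hb hn1 hn2 hn3 hn4 h0 h1] with X h1 h2
    refine ⟨h1, ?_⟩
    have e : ∀ p, (lam * √v < - trA W m p) = (trA W m p < - (lam * √v)) := fun p => by
      rw [lt_neg]
    simpa only [e] using h2

end Pool.Agent.Results.MP_753a9c_nt.ProductsOfEllipticCurves
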